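import Pool.Agent.H242R3.ES.StmtsK

/-!
# Project H242-ES, task K12: maximum principle
-/

set_option autoImplicit false

open Finset
open scoped Classical

namespace Pool.Agent.H957R3.ES

open Pool.Agent.H242R3.ES

theorem arct {α : Type} (s : Finset α) (p p' : ℝ) (q q' : α → ℝ) (c : ℝ) (hc : 0 < c) (hp : 0 < p)
    (hp' : p' = c * p) (hq : ∀ x ∈ s, 0 ≤ q x) (hq' : ∀ x ∈ s, 0 ≤ q' x)
    (hz : ∀ x ∈ s, (q x = 0 ↔ q' x = 0)) (hle : ∀ x ∈ s, q' x ≤ c * q x)
    (hsum : ∑ x ∈ s, Real.arctan (p' / q' x) = ∑ x ∈ s, Real.arctan (p / q x)) :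
    ∀ x ∈ s, q' x = c * q x := by
  have hterm : ∀ x ∈ s, Real.arctan (p / q x) ≤ Real.arctan (p' / q' x) := by
    intro x hx
    apply Real.arctan_strictMono.monotone
    by_cases h0 : q x = 0
    · rw [h0, (hz x hx).1 h0]; simp
    · have h1 : 0 < q x := lt_of_le_of_ne (hq x hx) (Ne.symm h0)
      have h2 : 0 < q' x := lt_of_le_of_ne (hq' x hx) (fun h => h0 ((hz x hx).2 h.symm))
      rw [div_le_div_iff₀ h1 h2, hp']
      have := mul_le_mul_of_nonneg_left (hle x hx) hp.le
      linarith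
  intro x hx
  have he := (Finset.sum_eq_sum_iff_of_le hterm).1 hsum.symm x hx
  have he2 := Real.arctan_injective he
  by_cases h0 : q x = 0
  · rw [h0, (hz x hx).1 h0]; simp
  · have h1 : 0 < q x := lt_of_le_of_ne (hq x hx) (Ne.symm h0)
    have h2 : 0 < q' x := lt_of_le_of_ne (hq' x hx) (fun h => h0 ((hz x hx).2 h.symm))
    rw [div_eq_div_iff h1.ne' h2.ne', hp'] at he2
    have h3 : p * (q' x - c * q x) = 0 := by linarith
    rcases mul_eq_zero.1 h3 with h | h
    · exact absurd h hp.ne'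
    · linarith

/-- the functional `x ↦ -B x w` -/
noncomputable def fn {D : ℕ} (w : LV D) : LV D →ₗ[ℝ] ℝ where
  toFun x := -B x w
  map_add' x y := by
    simp only [B, Pi.add_apply, add_mul, Finset.sum_add_distrib]; ring
  map_smul' r x := by
    simp only [B, Pi.smul_apply, smul_eq_mul, RingHom.id_apply, mul_assoc, ← Finset.mul_sum]; ring

theorem face_empty {D : ℕ} {ι : Type} [Fintype ι] {V : ι → LV D} (h : GQ D V) : Face V ∅ := by
  obtain ⟨w, _, hw⟩ := h.tw
  refine ⟨fn w, fun i => ?_, fun i => ?_⟩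
  · have := hw i
    change 0 ≤ -B (V i) w
    linarith
  · have := hw i
    constructor
    · intro hi; exact absurd hi (by simp)
    · intro hi
      change -B (V i) w = 0 at hi
      linarith

theorem taskK12 : TaskK12 := by
  intro hG7 hEdge hDPC hAngV hAngF hConn ι _ V V' hV hV' hFace N N' hN hN' o ho
  have hrk : ∀ S, Face V S → rk V S = rk V' S := fun S hS =>
    hG7 ι (LV 3) (LV 3) V V' hFace (face_empty hV) S hS
  have hEd : ∀ e, Ed V e ↔ Ed V' e := by
    intro e
    constructor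
    · rintro ⟨h1, h2⟩
      exact ⟨(hFace e).1 h1, by rw [← hrk e h1]; exact h2⟩
    · rintro ⟨h1, h2⟩
      exact ⟨(hFace e).2 h1, by rw [hrk e ((hFace e).2 h1)]; exact h2⟩
  have hFc : ∀ F, Fc V F ↔ Fc V' F := by
    intro e
    constructor
    · rintro ⟨h1, h2⟩
      exact ⟨(hFace e).1 h1, by rw [← hrk e h1]; exact h2⟩
    · rintro ⟨h1, h2⟩
      exact ⟨(hFace e).2 h1, by rw [hrk e ((hFace e).2 h1)]; exact h2⟩
  have ho' : Ed V' o := (hEd o).1 ho
  obtain ⟨hd, hdz⟩ := hDPC ι V hV N hN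
  obtain ⟨hd', hdz'⟩ := hDPC ι V' hV' N' hN'
  have ha := ((hEdge ι V hV).2.2.1 o ho).2
  have ha' := ((hEdge ι V' hV').2.2.1 o ho').2
  have hb : ∀ F, Fc V F → B (N F) (SY V o) ≤ 0 := fun F hF => hd.nx ⟨F, hF⟩ ⟨o, ho⟩
  have hb' : ∀ F, Fc V F → B (N' F) (SY V' o) ≤ 0 := fun F hF => hd'.nx ⟨F, (hFc F).1 hF⟩ ⟨o, ho'⟩
  have hbz : ∀ F, Fc V F → (B (N F) (SY V o) = 0 ↔ o ⊆ F) := fun F hF => hdz F o hF ho
  have hbz' : ∀ F, Fc V F → (B (N' F) (SY V' o) = 0 ↔ o ⊆ F) := fun F hF =>
    hdz' F o ((hFc F).1 hF) ho'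
  -- the ratios
  let J : Type := {i : ι // i ∉ o} ⊕ {F : Set ι // Fc V F ∧ ¬ o ⊆ F}
  let r : J → ℝ := Sum.elim (fun i => B (V' i) (SY V' o) / B (V i) (SY V o))
    (fun F => B (N' F) (SY V' o) / B (N F) (SY V o))
  have hneg : ∀ i, i ∉ o → B (V i) (SY V o) < 0 := fun i hi =>
    lt_of_le_of_ne (ha i).1 (fun h => hi ((ha i).2.1 h))
  have hneg' : ∀ i, i ∉ o → B (V' i) (SY V' o) < 0 := fun i hi =>
    lt_of_le_of_ne (ha' i).1 (fun h => hi ((ha' i).2.1 h))
  have hnegF : ∀ F, Fc V F → ¬ o ⊆ F → B (N F) (SY V o) < 0 := fun F hF ho =>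
    lt_of_le_of_ne (hb F hF) (fun h => ho ((hbz F hF).1 h))
  have hnegF' : ∀ F, Fc V F → ¬ o ⊆ F → B (N' F) (SY V' o) < 0 := fun F hF ho =>
    lt_of_le_of_ne (hb' F hF) (fun h => ho ((hbz' F hF).1 h))
  by_cases hJ : Nonempty J
  · obtain ⟨j0, hj0⟩ := Finite.exists_max r
    obtain ⟨c, hcdef⟩ : ∃ c, c = r j0 := ⟨_, rfl⟩
    have hc : 0 < c := by
      rw [hcdef]
      rcases j0 with i | F
      · exact div_pos_of_neg_of_neg (hneg' i i.2) (hneg i i.2)
      · exact div_pos_of_neg_of_neg (hnegF' F F.2.1 F.2.2) (hnegF F F.2.1 F.2.2)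
    have hle : ∀ i, -B (V' i) (SY V' o) ≤ c * -B (V i) (SY V o) := by
      intro i
      by_cases hi : i ∈ o
      · rw [(ha' i).2.2 hi, (ha i).2.2 hi]; simp
      · have h1 : B (V' i) (SY V' o) / B (V i) (SY V o) ≤ c := by
          rw [hcdef]; exact hj0 (Sum.inl ⟨i, hi⟩)
        rw [div_le_iff_of_neg (hneg i hi)] at h1
        linarith
    have hleF : ∀ F, Fc V F → -B (N' F) (SY V' o) ≤ c * -B (N F) (SY V o) := by
      intro F hF
      by_cases hi : o ⊆ F
      · rw [(hbz' F hF).2 hi, (hbz F hF).2 hi]; simp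
      · have h1 : B (N' F) (SY V' o) / B (N F) (SY V o) ≤ c := by
          rw [hcdef]; exact hj0 (Sum.inr ⟨F, hF, hi⟩)
        rw [div_le_iff_of_neg (hnegF F hF hi)] at h1
        linarith
    have hmain := hConn ι V hV o ho {i | B (V' i) (SY V' o) = c * B (V i) (SY V o)}
      {F | B (N' F) (SY V' o) = c * B (N F) (SY V o)} ?_ ?_
    · refine ⟨c, hc, ?_, ?_⟩
      · intro i
        by_cases hi : i ∈ o
        · rw [(ha' i).2.2 hi, (ha i).2.2 hi]; simp
        · exact hmain.1 i hi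
      · intro F hF
        by_cases hi : o ⊆ F
        · rw [(hbz' F hF).2 hi, (hbz F hF).2 hi]; simp
        · exact hmain.2 F hF hi
    · intro i F hF hiF hio hoF
      simp only [Set.mem_ofPred_eq]
      constructor
      · intro hM
        have e1 := hAngV ι V hV N hN o ho i hio
        have e2 := hAngV ι V' hV' N' hN' o ho' i hio
        simp only [← hFc] at e2
        have e3 : ∑ F ∈ Finset.univ.filter (fun F => Fc V F ∧ i ∈ F),
            Real.arctan (-B (V' i) (SY V' o) / -B (N' F) (SY V' o)) =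
            ∑ F ∈ Finset.univ.filter (fun F => Fc V F ∧ i ∈ F),
            Real.arctan (-B (V i) (SY V o) / -B (N F) (SY V o)) := by
          simp only [neg_div_neg_eq]
          rw [e1]; convert e2
        have e4 := arct _ (-B (V i) (SY V o)) (-B (V' i) (SY V' o)) (fun F => -B (N F) (SY V o))
          (fun F => -B (N' F) (SY V' o)) c hc (by linarith [hneg i hio]) (by rw [hM]; ring)
          (by intro F hF; have := hb F (Finset.mem_filter.1 hF).2.1; linarith)
          (by intro F hF; have := hb' F (Finset.mem_filter.1 hF).2.1; linarith)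
          (by intro F hF
              have h1 := (Finset.mem_filter.1 hF).2.1
              rw [neg_eq_zero, neg_eq_zero, hbz F h1, hbz' F h1])
          (by intro F hF; exact hleF F (Finset.mem_filter.1 hF).2.1) e3 F
          (Finset.mem_filter.2 ⟨Finset.mem_univ _, hF, hiF⟩)
        linarith
      · intro hM
        have e1 := hAngF ι V hV N hN o ho F hF hoF
        have e2 := hAngF ι V' hV' N' hN' o ho' F ((hFc F).1 hF) hoF
        have e3 : ∑ v ∈ Finset.univ.filter (fun v => v ∈ F),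
            Real.arctan (-B (N' F) (SY V' o) / -B (V' v) (SY V' o)) =
            ∑ v ∈ Finset.univ.filter (fun v => v ∈ F),
            Real.arctan (-B (N F) (SY V o) / -B (V v) (SY V o)) := by
          simp only [neg_div_neg_eq]
          rw [e1, e2]
        have e4 := arct _ (-B (N F) (SY V o)) (-B (N' F) (SY V' o)) (fun v => -B (V v) (SY V o))
          (fun v => -B (V' v) (SY V' o)) c hc (by linarith [hnegF F hF hoF]) (by rw [hM]; ring)
          (by intro v hv; have := (ha v).1; linarith)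
          (by intro v hv; have := (ha' v).1; linarith)
          (by intro v hv
              rw [neg_eq_zero, neg_eq_zero, (ha v).2, (ha' v).2])
          (by intro v hv; exact hle v) e3 i
          (Finset.mem_filter.2 ⟨Finset.mem_univ _, hiF⟩)
        linarith
    · rcases j0 with i | F
      · left
        refine ⟨i, ?_, i.2⟩
        have : c = B (V' i) (SY V' o) / B (V i) (SY V o) := hcdef
        rw [Set.mem_ofPred_eq, this, div_mul_cancel₀ _ (hneg i i.2).ne]
      · right
        refine ⟨F, ?_, F.2.1, F.2.2⟩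
        have : c = B (N' F) (SY V' o) / B (N F) (SY V o) := hcdef
        rw [Set.mem_ofPred_eq, this, div_mul_cancel₀ _ (hnegF F F.2.1 F.2.2).ne]
  · refine ⟨1, one_pos, ?_, ?_⟩
    · intro i
      have hi : i ∈ o := by
        by_contra h
        exact hJ ⟨Sum.inl ⟨i, h⟩⟩
      rw [(ha' i).2.2 hi, (ha i).2.2 hi]; simp
    · intro F hF
      have hi : o ⊆ F := by
        by_contra h
        exact hJ ⟨Sum.inr ⟨F, hF, h⟩⟩
      rw [(hbz' F hF).2 hi, (hbz F hF).2 hi]; simp

end Pool.Agent.H957R3.ES
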